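import Pool.Agent.Helper1.Stab.Proj
import Pool.Agent.Helper39.Stab.Ltens

/-! Classes of families in the Grassmannians `G κ`: conjugation with unitary matrices, direct sums,
and families that are put into a `G κ` along an injection of the coordinates. -/

open Topology Filter Set Matrix

noncomputable section

namespace Pool.Agent.Helper54.Stab

open Pool.Agent.Helper1.Stab Pool.Agent.Helper39.Stab

/-! ### Paths of unitary matrices -/

/-- a unitary element with finite spectrum is, up to a scalar, connected to one -/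
theorem path_aux {A : Type} [CStarAlgebra A] (U : A) (hU : U ∈ unitary A)
    (hs : (spectrum ℂ U).Finite) :
    ∃ u : unitInterval → A, Continuous u ∧ (∀ t, u t ∈ unitary A) ∧ u 0 = 1 ∧
      ∃ c : ℂ, star c * c = 1 ∧ u 1 = c • U := by
  -- choose a point of the circle
  have hinf : (Metric.sphere (0 : ℂ) 1).Infinite := by
    have h1 : (Set.range (fun n : ℕ => (Circle.exp (1 / (n + 1 : ℝ)) : ℂ))).Infinite := by
      apply Set.infinite_range_of_injective
      intro a b hab
      have h4 : ∀ n : ℕ, (Circle.exp (1 / (n + 1 : ℝ)) : ℂ).arg = 1 / (n + 1 : ℝ) := by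
        intro n
        have h5 : 0 < 1 / (n + 1 : ℝ) := by positivity
        have h6 : 1 / (n + 1 : ℝ) ≤ 1 := by
          rw [div_le_one (by positivity)]
          have : (0 : ℝ) ≤ n := n.cast_nonneg
          linarith
        apply Circle.arg_exp
        · linarith [Real.pi_pos]
        · linarith [Real.two_le_pi]
      have h5 : 1 / (a + 1 : ℝ) = 1 / (b + 1 : ℝ) := by
        rw [← h4 a, ← h4 b]
        exact congrArg Complex.arg hab
      have ha : (0 : ℝ) < a + 1 := by positivity
      have hb : (0 : ℝ) < b + 1 := by positivity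
      have h6 : (a + 1 : ℝ) = b + 1 := by
        have := congrArg (fun x : ℝ => x⁻¹) h5
        simpa using this
      have h7 : (a : ℝ) = b := by linarith
      exact_mod_cast h7
    refine h1.mono ?_
    rintro _ ⟨n, rfl⟩
    rw [mem_sphere_zero_iff_norm]
    exact Circle.norm_coe _
  obtain ⟨z, hz, hzs⟩ := (hinf.sdiff hs).nonempty
  have hz1 : ‖z‖ = 1 := by simpa using hz
  have hz0 : z ≠ 0 := by
    rintro rfl
    simp at hz1
  -- the scalar
  obtain ⟨c, hc⟩ : ∃ c : ℂ, c = -z⁻¹ := ⟨_, rfl⟩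
  have hcn : ‖c‖ = 1 := by rw [hc, norm_neg, norm_inv, hz1, inv_one]
  have hcc : star c * c = 1 := by
    rw [Complex.star_def, Complex.conj_mul', hcn]
    norm_num
  have hc0 : c ≠ 0 := by
    rintro rfl
    simp at hcn
  have hcU : c • U ∈ unitary A := by
    rw [Unitary.mem_iff] at hU ⊢
    constructor
    · rw [star_smul, smul_mul_smul_comm, hU.1, hcc, one_smul]
    · rw [star_smul, smul_mul_smul_comm, hU.2, mul_comm, hcc, one_smul]
  have hsp : (-1 : ℂ) ∉ spectrum ℂ (c • U) := by
    intro h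
    apply hzs
    have h1 : (-1 : ℂ) = (Units.mk0 c hc0) • z := by
      rw [Units.smul_def, Units.val_mk0, smul_eq_mul, hc]
      field_simp
    have h2 : c • U = (Units.mk0 c hc0) • U := rfl
    rw [h1, h2, spectrum.smul_mem_smul_iff] at h
    exact h
  have hn : ‖c • U - 1‖ < 2 := (Unitary.norm_sub_one_lt_two_iff hcU).2 hsp
  let p := Unitary.path (1 : unitary A) ⟨c • U, hcU⟩ hn
  refine ⟨fun t => (p t : A), continuous_subtype_val.comp p.continuous, fun t => (p t).2, ?_, c,
    hcc, ?_⟩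
  · simp
  · simp

/-- a unitary matrix is, up to a scalar, connected to one -/
theorem exists_path {ι : Type} [Fintype ι] [DecidableEq ι] (U : Matrix ι ι ℂ) (hU : Uᴴ * U = 1) :
    ∃ u : unitInterval → Matrix ι ι ℂ, Continuous u ∧ (∀ t, (u t)ᴴ * u t = 1) ∧ u 0 = 1 ∧
      ∃ c : ℂ, star c * c = 1 ∧ u 1 = c • U := by
  have h := @path_aux (Matrix ι ι ℂ) Matrix.instCStarAlgebra U
    ((Unitary.mem_iff).2 ⟨hU, mul_eq_one_comm.1 hU⟩) (Matrix.finite_spectrum U)
  obtain ⟨u, h1, h2, h3, c, h4, h5⟩ := h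
  exact ⟨u, h1, fun t => ((Unitary.mem_iff).1 (h2 t)).1, h3, c, h4, h5⟩

/-! ### Classes of families -/

/-- conjugation with a unitary matrix -/
def cj {κ : Type} [Fintype κ] [DecidableEq κ] (U : Matrix (κ × Bool) (κ × Bool) ℂ)
    (hU : Uᴴ * U = 1) (P : GK κ) : GK κ := GK.conj ⟨U, (Matrix.mem_unitaryGroup_iff').2 hU⟩ P

theorem cj_val {κ : Type} [Fintype κ] [DecidableEq κ] (U : Matrix (κ × Bool) (κ × Bool) ℂ)
    (hU : Uᴴ * U = 1) (P : GK κ) : (cj U hU P).1 = U * P.1 * Uᴴ := rfl

variable (R : GBiv)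

/-- the class of a family -/
def cl {K : LC} [CompactSpace K] {κ : Type} [Fintype κ] (F : C(K, GK κ)) : R.Hom K LC.point :=
  R.comp (R.J (PMap.ofCont (K := K) (L := LC.G κ) F F.continuous)) (R.g κ)

instance (K L : LC) [CompactSpace K] [CompactSpace L] : CompactSpace (K.prod L) :=
  inferInstanceAs (CompactSpace (K × L))

theorem cl_homotopy {K : LC} [CompactSpace K] {κ : Type} [Fintype κ] {F F' : C(K, GK κ)}
    (H : unitInterval × K → GK κ) (hH : Continuous H) (h0 : ∀ k, H (0, k) = F k)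
    (h1 : ∀ k, H (1, k) = F' k) : cl R F = cl R F' := by
  unfold cl
  congr 1
  apply R.J_homotopic
  refine ⟨PMap.ofCont (K := LC.I.prod K) (L := LC.G κ) H hH, fun k => ?_, fun k => ?_⟩
  · exact congrArg OnePoint.some (h0 k)
  · exact congrArg OnePoint.some (h1 k)

/-- conjugation with a constant unitary matrix does not change the class -/
theorem cl_conj {K : LC} [CompactSpace K] {κ : Type} [Fintype κ] [DecidableEq κ]
    {F F' : C(K, GK κ)}
    (U : Matrix (κ × Bool) (κ × Bool) ℂ) (hU : Uᴴ * U = 1)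
    (h : ∀ k, (F' k).1 = U * (F k).1 * Uᴴ) : cl R F = cl R F' := by
  obtain ⟨u, h1, h2, h3, c, h4, h5⟩ := exists_path U hU
  refine cl_homotopy R (fun x => cj (u x.1) (h2 x.1) (F x.2)) ?_ ?_ ?_
  · refine Continuous.subtype_mk ?_ _
    have hu : Continuous fun x : unitInterval × K => u x.1 := h1.comp continuous_fst
    have hF : Continuous fun x : unitInterval × K => (F x.2).1 :=
      continuous_subtype_val.comp (F.continuous.comp continuous_snd)
    exact (hu.matrix_mul hF).matrix_mul hu.matrix_conjTranspose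
  · intro k
    refine Subtype.ext ?_
    rw [cj_val]
    simp only [h3]
    rw [Matrix.conjTranspose_one, Matrix.one_mul, Matrix.mul_one]
  · intro k
    refine Subtype.ext ?_
    rw [cj_val, h]
    simp only [h5]
    rw [Matrix.conjTranspose_smul, Matrix.smul_mul, Matrix.smul_mul, Matrix.mul_smul, smul_smul,
      mul_comm, h4, one_smul]

/-- renaming the coordinates by a permutation does not change the class -/
theorem cl_perm {K : LC} [CompactSpace K] {κ : Type} [Fintype κ] {F F' : C(K, GK κ)}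
    (σ : Equiv.Perm (κ × Bool)) (h : ∀ k x y, (F' k).1 x y = (F k).1 (σ x) (σ y)) :
    cl R F = cl R F' := by
  classical
  let U : Matrix (κ × Bool) (κ × Bool) ℂ := fun x a => if σ x = a then 1 else 0
  have hU : U * Uᴴ = 1 := by
    ext x y
    rw [Matrix.mul_apply, Finset.sum_eq_single (σ x)]
    · rw [Matrix.conjTranspose_apply, Matrix.one_apply]
      simp only [U, if_true, one_mul, σ.injective.eq_iff]
      by_cases hxy : x = y
      · rw [if_pos hxy.symm, if_pos hxy, star_one]
      · rw [if_neg (fun h' => hxy h'.symm), if_neg hxy, star_zero]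
    · intro b _ hb
      simp only [U]
      rw [if_neg (fun h' => hb h'.symm), zero_mul]
    · intro h'
      exact absurd (Finset.mem_univ _) h'
  refine cl_conj R U (mul_eq_one_comm.1 hU) fun k => ?_
  ext x y
  rw [h, Matrix.mul_apply, Finset.sum_eq_single (σ y)]
  · rw [Matrix.conjTranspose_apply, Matrix.mul_apply, Finset.sum_eq_single (σ x)]
    · simp only [U, if_true, one_mul, star_one, mul_one]
    · intro b _ hb
      simp only [U]
      rw [if_neg (fun h' => hb h'.symm), zero_mul]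
    · intro h'
      exact absurd (Finset.mem_univ _) h'
  · intro b _ hb
    rw [Matrix.conjTranspose_apply]
    simp only [U]
    rw [if_neg (fun h' => hb h'.symm), star_zero, mul_zero]
  · intro h'
    exact absurd (Finset.mem_univ _) h'

/-- renaming the coordinates `κ ≃ l` does not change the class -/
theorem cl_reindex {K : LC} [CompactSpace K] {κ l : Type} [Fintype κ] [Fintype l] {F : C(K, GK κ)}
    {F' : C(K, GK l)} (e : κ ≃ l) (h : ∀ k, F' k = GK.reindex e (F k)) : cl R F = cl R F' := by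
  unfold cl
  rw [← R.g_reindex e, ← R.assoc, ← R.J_comp]
  congr 2
  ext k
  exact congrArg OnePoint.some (h k).symm

/-- direct sums of families -/
def sumF {K : LC} {κ l : Type} [Fintype κ] [Fintype l] (F : C(K, GK κ)) (F' : C(K, GK l)) :
    C(K, GK (κ ⊕ l)) :=
  ⟨fun k => GK.sum (F k, F' k), GK.continuous_sum.comp (F.continuous.prodMk F'.continuous)⟩

theorem cl_sum {K : LC} [CompactSpace K] {κ l : Type} [Fintype κ] [Fintype l] (F : C(K, GK κ))
    (F' : C(K, GK l)) : cl R (sumF F F') =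
      R.comp (R.J (graph (X := K) (L := K) (fun k => k) continuous_id))
        (R.comp (R.comp (R.tens (cl R F) K) (R.ltens LC.point (cl R F')))
          (R.J (PMap.ofHomeo (Homeomorph.punitProd LC.point)))) := by
  unfold cl
  have e1 : PMap.ofCont (K := K) (L := LC.G (κ ⊕ l)) (sumF F F') (sumF F F').continuous =
      (GK.sumMap κ l).comp ((PMap.ltens (LC.G κ) (PMap.ofCont (K := K) (L := LC.G l) F'
        F'.continuous)).comp (((PMap.ofCont (K := K) (L := LC.G κ) F F.continuous).tens K).comp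
        (graph (X := K) (L := K) (fun k => k) continuous_id))) := by
    ext k
    rfl
  have e2 : (PMap.ofHomeo (K := LC.point.prod LC.point) (L := LC.point)
      (Homeomorph.prodPUnit LC.point)) =
      (PMap.ofHomeo (K := LC.point.prod LC.point) (L := LC.point)
      (Homeomorph.punitProd LC.point)) := by
    ext k
    rfl
  rw [e1, R.J_comp, R.assoc, R.g_sum, e2, R.J_comp, R.J_comp, ← ltens_J R.toBiv, ← R.tens_J]
  rw [R.tens_comp, ltens_comp R.toBiv]
  simp only [R.assoc]
  congr 2
  rw [← R.assoc (R.ltens (LC.G κ) _) (R.tens (R.g κ) (LC.G l))]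
  rw [← exch' R.toBiv (R.g κ)]
  simp only [R.assoc]

/-- the class of a constant family at the base point -/
theorem cl_base {K : LC} [CompactSpace K] {κ : Type} [Fintype κ] {F : C(K, GK κ)}
    (h : ∀ k, F k = GK.base κ) : cl R F = R.J (PMap.toPoint K) := by
  unfold cl
  have e1 : PMap.ofCont (K := K) (L := LC.G κ) F F.continuous =
      (PMap.ofPoint (K := LC.G κ) (GK.base κ)).comp (PMap.toPoint K) := by
    ext k
    exact congrArg OnePoint.some (h k)
  rw [e1, R.J_comp, R.assoc, R.g_base, R.comp_id]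

/-- adding a base point does not change the class -/
theorem cl_sum_base {K : LC} [CompactSpace K] {κ l : Type} [Fintype κ] [Fintype l]
    (F : C(K, GK κ)) (F' : C(K, GK l)) (h : ∀ k, F' k = GK.base l) :
    cl R (sumF F F') = cl R F := by
  rw [cl_sum, cl_base R h, R.assoc]
  have e1 : R.comp (R.tens (cl R F) K) (R.comp (R.ltens LC.point (R.J (PMap.toPoint K)))
      (R.J (PMap.ofHomeo (K := LC.point.prod LC.point) (L := LC.point)
        (Homeomorph.punitProd LC.point)))) =
      R.comp (R.ltens K (R.J (PMap.toPoint K))) (R.comp (R.tens (cl R F) LC.point)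
        (R.J (PMap.ofHomeo (K := LC.point.prod LC.point) (L := LC.point)
          (Homeomorph.prodPUnit LC.point)))) := by
    rw [← R.assoc, exch' R.toBiv, R.assoc]
    congr 2
  rw [e1, R.tens_point, ← R.assoc, ← R.assoc, ltens_J R.toBiv, ← R.J_comp, ← R.J_comp]
  have e2 : (PMap.ofHomeo (Homeomorph.prodPUnit K : K.prod LC.point ≃ₜ K)).comp
      ((PMap.ltens K (PMap.toPoint K)).comp
        (graph (X := K) (L := K) (fun k => k) continuous_id)) = PMap.id K := by
    ext k
    rfl
  rw [e2, R.id_comp]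

/-! ### Families that are put into a Grassmannian -/

/-- two injections and two sets of the same size can be exchanged by a permutation -/
theorem exists_perm {X S : Type} [Fintype X] (i i' : S ↪ X) (A A' : Finset X)
    (hA : ∀ s, i s ∉ A) (hA' : ∀ s, i' s ∉ A') (hc : A.card = A'.card) :
    ∃ σ : Equiv.Perm X, (∀ s, σ (i' s) = i s) ∧ ∀ x, σ x ∈ A ↔ x ∈ A' := by
  classical
  let j : S ⊕ {x // x ∈ A} → X := Sum.elim i Subtype.val
  let j' : S ⊕ {x // x ∈ A'} → X := Sum.elim i' Subtype.val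
  have hj : Function.Injective j := by
    refine Function.Injective.sumElim i.injective Subtype.val_injective ?_
    rintro s ⟨x, hx⟩ h
    exact hA s (h ▸ hx)
  have hj' : Function.Injective j' := by
    refine Function.Injective.sumElim i'.injective Subtype.val_injective ?_
    rintro s ⟨x, hx⟩ h
    exact hA' s (h ▸ hx)
  let e0 : {x // x ∈ A'} ≃ {x // x ∈ A} := Finset.equivOfCardEq hc.symm
  let e : {x // x ∈ range j'} ≃ {x // x ∈ range j} :=
    (Equiv.ofInjective j' hj').symm.trans
      ((Equiv.sumCongr (Equiv.refl S) e0).trans (Equiv.ofInjective j hj))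
  have he : ∀ v, e.extendSubtype (j' v) = j (Equiv.sumCongr (Equiv.refl S) e0 v) := by
    intro v
    rw [Equiv.extendSubtype_apply_of_mem e (j' v) ⟨v, rfl⟩]
    show ((Equiv.ofInjective j hj) ((Equiv.sumCongr (Equiv.refl S) e0)
      ((Equiv.ofInjective j' hj').symm ⟨j' v, ⟨v, rfl⟩⟩)) : X) = _
    have h1 : (Equiv.ofInjective j' hj').symm ⟨j' v, ⟨v, rfl⟩⟩ = v := by
      rw [Equiv.symm_apply_eq]
      rfl
    rw [h1]
    rfl
  refine ⟨e.extendSubtype, fun s => he (.inl s), fun x => ⟨fun hx => ?_, fun hx => ?_⟩⟩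
  · have h1 := he (.inr (e0.symm ⟨_, hx⟩))
    simp only [Equiv.sumCongr_apply, Sum.map_inr, Equiv.apply_symm_apply, j, j', Sum.elim_inr] at h1
    have h2 := e.extendSubtype.injective h1
    rw [← h2]
    exact (e0.symm ⟨_, hx⟩).2
  · have h1 := he (.inr ⟨x, hx⟩)
    simp only [Equiv.sumCongr_apply, Sum.map_inr, j, j', Sum.elim_inr] at h1
    rw [h1]
    exact (e0 ⟨x, hx⟩).2

/-- `Q` is the sum of `P`, moved along the injection `i`, and the projection onto the coordinates
in `A` -/
structure Put {κ S : Type} [Fintype κ] [Fintype S] {n : ℕ} (i : S ↪ κ × Bool)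
    (A : Finset (κ × Bool)) (P : Pr S n) (Q : GK κ) : Prop where
  p1 : ∀ s t, Q.1 (i s) (i t) = P.1 s t
  p2 : ∀ x ∈ A, Q.1 x x = 1
  p2' : ∀ x ∈ A, ∀ y, x ≠ y → Q.1 x y = 0
  p3 : ∀ x y, x ∉ A → (x ∉ range i ∨ y ∉ range i) → Q.1 x y = 0

theorem cl_put_perm {K : LC} [CompactSpace K] {κ S : Type} [Fintype κ] [Fintype S] {n : ℕ}
    {F F' : C(K, GK κ)} {E : K → Pr S n} {i i' : S ↪ κ × Bool} {A A' : Finset (κ × Bool)}
    (hA : ∀ s, i s ∉ A) (hA' : ∀ s, i' s ∉ A') (hc : A.card = A'.card)
    (h : ∀ k, Put i A (E k) (F k)) (h' : ∀ k, Put i' A' (E k) (F' k)) : cl R F = cl R F' := by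
  obtain ⟨σ, h1, h2⟩ := exists_perm i i' A A' hA hA' hc
  have hr : ∀ x, σ x ∈ range i ↔ x ∈ range i' := by
    intro x
    constructor
    · rintro ⟨s, hs⟩
      refine ⟨s, ?_⟩
      rw [← h1 s] at hs
      exact σ.injective hs
    · rintro ⟨s, rfl⟩
      exact ⟨s, (h1 s).symm⟩
  refine cl_perm R σ fun k x y => ?_
  by_cases hx : x ∈ A'
  · by_cases hxy : x = y
    · rw [← hxy, (h' k).p2 x hx, (h k).p2 _ ((h2 x).2 hx)]
    · rw [(h' k).p2' x hx y hxy, (h k).p2' _ ((h2 x).2 hx) _ (fun e => hxy (σ.injective e))]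
  · by_cases hy : x ∈ range i' ∧ y ∈ range i'
    · obtain ⟨⟨s, rfl⟩, ⟨t, rfl⟩⟩ := hy
      rw [(h' k).p1, h1, h1, (h k).p1]
    · rw [not_and_or] at hy
      rw [(h' k).p3 x y hx hy, (h k).p3 _ _ (fun e => hx ((h2 x).1 e))]
      rw [hr, hr]
      exact hy

/-- the coordinates of the left summand -/
def il {κ l : Type} : κ × Bool ↪ (κ ⊕ l) × Bool :=
  ⟨fun x => (.inl x.1, x.2), fun x y h => by
    simp only [Prod.mk.injEq, Sum.inl.injEq] at h
    exact Prod.ext h.1 h.2⟩

/-- the coordinates of the right summand that belong to the base point -/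
def ir {κ l : Type} : l ↪ (κ ⊕ l) × Bool :=
  ⟨fun x => (.inr x, true), fun x y h => by
    simp only [Prod.mk.injEq, Sum.inr.injEq] at h
    exact h.1⟩

theorem il_ne_ir {κ l : Type} (x : κ × Bool) (y : l) : (il x : (κ ⊕ l) × Bool) ≠ ir y := by
  intro h
  have := congrArg Prod.fst h
  exact Sum.inl_ne_inr this

theorem Put.sum {κ l S : Type} [Fintype κ] [Fintype l] [Fintype S] {n : ℕ} {i : S ↪ κ × Bool}
    {A : Finset (κ × Bool)} {P : Pr S n} {Q : GK κ} (h : Put i A P Q) :
    Put (i.trans il) ((A.map il).disjUnion (Finset.univ.map ir) (by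
      rw [Finset.disjoint_left]
      intro x hx hx'
      obtain ⟨a, -, rfl⟩ := Finset.mem_map.1 hx
      obtain ⟨b, -, hb⟩ := Finset.mem_map.1 hx'
      exact il_ne_ir _ _ hb.symm)) P (GK.sum (Q, GK.base l)) := by
  classical
  refine ⟨fun s t => h.p1 s t, ?_, ?_, ?_⟩
  · intro x hx
    rw [Finset.mem_disjUnion] at hx
    rcases hx with hx | hx
    · obtain ⟨a, ha, rfl⟩ := Finset.mem_map.1 hx
      exact h.p2 a ha
    · obtain ⟨a, ha, rfl⟩ := Finset.mem_map.1 hx
      exact if_pos ⟨rfl, rfl⟩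
  · intro x hx y hxy
    rw [Finset.mem_disjUnion] at hx
    rcases hx with hx | hx
    · obtain ⟨a, ha, rfl⟩ := Finset.mem_map.1 hx
      rcases y with ⟨y | y, c⟩
      · refine h.p2' a ha (y, c) ?_
        rintro rfl
        exact hxy rfl
      · rfl
    · obtain ⟨a, ha, rfl⟩ := Finset.mem_map.1 hx
      rcases y with ⟨y | y, c⟩
      · rfl
      · refine if_neg ?_
        rintro ⟨h1, -⟩
        apply hxy
        simp only [Prod.mk.injEq] at h1
        exact Prod.ext (congrArg Sum.inr h1.1) h1.2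
  · intro x y hx hxy
    rw [Finset.mem_disjUnion, not_or] at hx
    rcases x with ⟨x | x, b⟩ <;> rcases y with ⟨y | y, c⟩
    · refine h.p3 (x, b) (y, c) ?_ ?_
      · intro hx'
        exact hx.1 (Finset.mem_map.2 ⟨_, hx', rfl⟩)
      · rcases hxy with h1 | h1
        · left
          rintro ⟨s, hs⟩
          exact h1 ⟨s, congrArg il hs⟩
        · right
          rintro ⟨s, hs⟩
          exact h1 ⟨s, congrArg il hs⟩
    · rfl
    · rfl
    · refine if_neg ?_
      rintro ⟨h1, h2⟩
      apply hx.2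
      refine Finset.mem_map.2 ⟨x, Finset.mem_univ _, ?_⟩
      simp only at h2
      rw [h2]
      rfl

theorem Put.reindex {κ l S : Type} [Fintype κ] [Fintype l] [Fintype S] {n : ℕ} {i : S ↪ κ × Bool}
    {A : Finset (κ × Bool)} {P : Pr S n} {Q : GK κ} (h : Put i A P Q) (e : κ ≃ l) :
    Put (i.trans (e.prodCongr (Equiv.refl Bool)).toEmbedding)
      (A.map (e.prodCongr (Equiv.refl Bool)).toEmbedding) P (GK.reindex e Q) := by
  have hv : ∀ x y : κ × Bool, (GK.reindex e Q).1 (e x.1, x.2) (e y.1, y.2) = Q.1 x y := by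
    intro x y
    show Q.1 (e.symm (e x.1), x.2) (e.symm (e y.1), y.2) = _
    rw [e.symm_apply_apply, e.symm_apply_apply]
  have hs : ∀ x : l × Bool, ∃ y : κ × Bool, x = (e y.1, y.2) := fun x =>
    ⟨(e.symm x.1, x.2), Prod.ext (e.apply_symm_apply _).symm rfl⟩
  refine ⟨fun s t => (hv _ _).trans (h.p1 s t), ?_, ?_, ?_⟩
  · intro x hx
    obtain ⟨a, ha, rfl⟩ := Finset.mem_map.1 hx
    exact (hv _ _).trans (h.p2 a ha)
  · intro x hx y hxy
    obtain ⟨a, ha, rfl⟩ := Finset.mem_map.1 hx
    obtain ⟨b, rfl⟩ := hs y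
    refine (hv _ _).trans (h.p2' a ha b ?_)
    rintro rfl
    exact hxy rfl
  · intro x y hx hxy
    obtain ⟨a, rfl⟩ := hs x
    obtain ⟨b, rfl⟩ := hs y
    refine (hv _ _).trans (h.p3 a b ?_ ?_)
    · intro ha
      exact hx (Finset.mem_map.2 ⟨a, ha, rfl⟩)
    · rcases hxy with h1 | h1
      · left
        rintro ⟨s, hs⟩
        exact h1 ⟨s, congrArg (e.prodCongr (Equiv.refl Bool)) hs⟩
      · right
        rintro ⟨s, hs⟩
        exact h1 ⟨s, congrArg (e.prodCongr (Equiv.refl Bool)) hs⟩

/-- The class of a family that is put into a Grassmannian depends only on the family. -/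
theorem cl_put {K : LC} [CompactSpace K] {κ l S : Type} [Fintype κ] [Fintype l] [Fintype S] {n : ℕ}
    {F : C(K, GK κ)} {F' : C(K, GK l)} {E : K → Pr S n} {i : S ↪ κ × Bool} {i' : S ↪ l × Bool}
    {A : Finset (κ × Bool)} {A' : Finset (l × Bool)}
    (hA : ∀ s, i s ∉ A) (hA' : ∀ s, i' s ∉ A') (hc : n + A.card = Fintype.card κ)
    (hc' : n + A'.card = Fintype.card l)
    (h : ∀ k, Put i A (E k) (F k)) (h' : ∀ k, Put i' A' (E k) (F' k)) : cl R F = cl R F' := by
  let B : C(K, GK κ) := ContinuousMap.const K (GK.base κ)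
  let B' : C(K, GK l) := ContinuousMap.const K (GK.base l)
  rw [← cl_sum_base R F B' (fun _ => rfl), ← cl_sum_base R F' B (fun _ => rfl)]
  let G : C(K, GK (κ ⊕ l)) :=
    ⟨fun k => GK.reindex (Equiv.sumComm l κ) (sumF F' B k),
      (GK.reindex (Equiv.sumComm l κ)).continuous.comp (sumF F' B).continuous⟩
  rw [cl_reindex R (F := sumF F' B) (F' := G) (Equiv.sumComm l κ) (fun _ => rfl)]
  refine cl_put_perm R ?_ ?_ ?_ (fun k => (h k).sum (l := l))
    (fun k => ((h' k).sum (l := κ)).reindex (Equiv.sumComm l κ))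
  · intro s hs
    rw [Finset.mem_disjUnion] at hs
    rcases hs with hs | hs
    · obtain ⟨a, ha, hb⟩ := Finset.mem_map.1 hs
      exact hA s (il.injective hb ▸ ha)
    · obtain ⟨a, ha, hb⟩ := Finset.mem_map.1 hs
      exact il_ne_ir _ _ hb.symm
  · intro s hs
    obtain ⟨a, ha, hb⟩ := Finset.mem_map.1 hs
    have hb' := (Equiv.prodCongr (Equiv.sumComm l κ) (Equiv.refl Bool)).injective hb
    rw [Finset.mem_disjUnion] at ha
    rcases ha with ha | ha
    · obtain ⟨c, hc, rfl⟩ := Finset.mem_map.1 ha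
      exact hA' s (il.injective hb' ▸ hc)
    · obtain ⟨c, hc, rfl⟩ := Finset.mem_map.1 ha
      exact il_ne_ir _ _ hb'.symm
  · rw [Finset.card_map, Finset.card_disjUnion, Finset.card_disjUnion, Finset.card_map,
      Finset.card_map, Finset.card_map, Finset.card_map, Finset.card_univ, Finset.card_univ]
    omega

/-! ### Constant families -/

/-- spectral theorem for a projection -/
theorem exists_diag {κ : Type} [Fintype κ] [DecidableEq κ] (Q : GK κ) :
    ∃ (U : Matrix (κ × Bool) (κ × Bool) ℂ) (D : GK κ) (A : Finset (κ × Bool)), Uᴴ * U = 1 ∧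
      Q.1 = U * D.1 * Uᴴ ∧ (∀ x y, D.1 x y = if x = y ∧ x ∈ A then 1 else 0) ∧
      A.card = Fintype.card κ := by
  classical
  have hQ : Q.1.IsHermitian := Q.2.1
  obtain ⟨V, hV⟩ : ∃ V : Matrix (κ × Bool) (κ × Bool) ℂ, V = hQ.eigenvectorUnitary := ⟨_, rfl⟩
  have hV1 : Vᴴ * V = 1 := by
    rw [hV]
    exact (Matrix.mem_unitaryGroup_iff').1 hQ.eigenvectorUnitary.2
  have hV2 : V * Vᴴ = 1 := mul_eq_one_comm.1 hV1
  have hs : Q.1 = V * Matrix.diagonal (RCLike.ofReal ∘ hQ.eigenvalues) * Vᴴ := by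
    have h := hQ.spectral_theorem
    rw [Unitary.conjStarAlgAut_apply] at h
    rw [hV]
    exact h
  obtain ⟨d, hd⟩ : ∃ d : κ × Bool → ℂ, d = RCLike.ofReal ∘ hQ.eigenvalues := ⟨_, rfl⟩
  rw [← hd] at hs
  have hVV : (Vᴴ)ᴴ * Vᴴ = 1 := by rw [Matrix.conjTranspose_conjTranspose, hV2]
  let D : GK κ := cj Vᴴ hVV Q
  have hD : D.1 = Matrix.diagonal d := by
    show Vᴴ * Q.1 * (Vᴴ)ᴴ = _
    rw [Matrix.conjTranspose_conjTranspose, hs]
    calc Vᴴ * (V * Matrix.diagonal d * Vᴴ) * V
        = (Vᴴ * V) * Matrix.diagonal d * (Vᴴ * V) := by simp only [Matrix.mul_assoc]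
      _ = Matrix.diagonal d := by rw [hV1, Matrix.one_mul, Matrix.mul_one]
  have h01 : ∀ x, d x = 1 ∨ d x = 0 := by
    intro x
    have h := D.2.2.1
    rw [hD, Matrix.diagonal_mul_diagonal] at h
    have h1 := congrFun (congrFun h x) x
    rw [Matrix.diagonal_apply_eq, Matrix.diagonal_apply_eq] at h1
    have h2 : d x * (d x - 1) = 0 := by linear_combination h1
    rcases mul_eq_zero.1 h2 with h3 | h3
    · right; exact h3
    · left; linear_combination h3
  have htr := D.2.2.2
  rw [hD, Matrix.trace_diagonal] at htr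
  refine ⟨V, D, Finset.univ.filter fun x => d x = 1, hV1, ?_, ?_, ?_⟩
  · rw [hD, ← hs]
  · intro x y
    rw [hD]
    by_cases hxy : x = y
    · subst hxy
      rw [Matrix.diagonal_apply_eq]
      rcases h01 x with h | h
      · rw [h, if_pos ⟨rfl, by simp [h]⟩]
      · rw [h, if_neg]
        rintro ⟨-, h'⟩
        rw [Finset.mem_filter] at h'
        rw [h] at h'
        exact zero_ne_one h'.2
    · rw [Matrix.diagonal_apply_ne _ hxy, if_neg (fun h => hxy h.1)]
  · have h1 : ∑ x, d x = ∑ x, (if d x = 1 then 1 else 0 : ℂ) := by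
      refine Finset.sum_congr rfl fun x _ => ?_
      rcases h01 x with h | h
      · rw [h, if_pos rfl]
      · rw [h, if_neg zero_ne_one]
    rw [h1, Finset.sum_boole] at htr
    exact_mod_cast htr

/-- the class of a constant family is one -/
theorem cl_const {K : LC} [CompactSpace K] {κ : Type} [Fintype κ] (F : C(K, GK κ)) (Q : GK κ)
    (h : ∀ k, F k = Q) : cl R F = R.J (PMap.toPoint K) := by
  classical
  obtain ⟨U, D, A, hU, hQ, hD, hA⟩ := exists_diag Q
  let F' : C(K, GK κ) := ContinuousMap.const K D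
  let B : C(K, GK κ) := ContinuousMap.const K (GK.base κ)
  have h1 : cl R F' = cl R F := cl_conj R U hU fun k => by rw [h k]; exact hQ
  have h2 : cl R B = R.J (PMap.toPoint K) := cl_base R fun _ => rfl
  rw [← h1, ← h2]
  let E : Pr Empty 0 := ⟨0, by
    refine ⟨Matrix.conjTranspose_zero, Matrix.mul_zero _, ?_⟩
    rw [Matrix.trace_zero, Nat.cast_zero]⟩
  let t : κ ↪ κ × Bool := ⟨fun x => (x, true), fun x y h => (Prod.mk.inj h).1⟩
  refine cl_put_perm R (S := Empty) (n := 0) (E := fun _ => E) (i := Function.Embedding.ofIsEmpty)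
    (i' := Function.Embedding.ofIsEmpty) (A := A) (A' := Finset.univ.map t)
    (fun s => s.elim) (fun s => s.elim) ?_ (fun k => ?_) (fun k => ?_)
  · rw [hA, Finset.card_map, Finset.card_univ]
  · refine ⟨fun s => s.elim, fun x hx => ?_, fun x hx y hxy => ?_, fun x y hx _ => ?_⟩
    · exact (hD x x).trans (if_pos ⟨rfl, hx⟩)
    · exact (hD x y).trans (if_neg fun h => hxy h.1)
    · exact (hD x y).trans (if_neg fun h => hx h.2)
  · refine ⟨fun s => s.elim, fun x hx => ?_, fun x hx y hxy => ?_, fun x y hx _ => ?_⟩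
    · obtain ⟨a, -, rfl⟩ := Finset.mem_map.1 hx
      exact if_pos ⟨rfl, rfl⟩
    · exact if_neg fun h => hxy h.1
    · refine if_neg fun h => hx ?_
      refine Finset.mem_map.2 ⟨x.1, Finset.mem_univ _, ?_⟩
      exact Prod.ext rfl h.2.symm

end Pool.Agent.Helper54.Stab
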