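import Pool.Agent.Helper1.Stab.T.Op

/-! The universal property of the polynomial theory. -/

open Topology Filter Set

noncomputable section

namespace Pool.Agent.Helper54.Stab

open Pool.Agent.Helper1.Stab
open Pool.Agent.Helper63.Stab (jh jh_congr jh_trans jh_id jh_def jh_symm_comp jh_comp_symm
  jh_comp_symm' jh_symm_comp' pl pl_jh jh_pl pl_congr tens_eq_pl ltens_eq_pl eq_pl tens_pl rp)

/-! ## The operation of the classes in `T(A, pt)` -/

section Act
variable (T : Biv)

theorem act_eq_pl {A : LC} (x : T.Hom A LC.point) (Z : LC) :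
    T.act x Z = pl T x (Homeomorph.refl (A.prod Z)) (LC.lunit Z).symm := by
  unfold Biv.act
  rw [tens_eq_pl, pl_jh]
  rfl

/-- naturality of `pt × Z = Z` -/
theorem ltens_point {Z Z' : LC} (z : T.Hom Z Z') :
    T.comp (T.ltens LC.point z) (jh T (LC.lunit Z')) = T.comp (jh T (LC.lunit Z)) z := by
  rw [ltens_eq_pl, pl_jh]
  conv_rhs => rw [eq_pl z]
  rw [jh_pl]
  exact pl_congr z (Homeomorph.refl LC.point) _ _ _ _ (fun m => rfl) (fun n => rfl)

theorem act_nat {A Z Z' : LC} (x : T.Hom A LC.point) (z : T.Hom Z Z') :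
    T.comp (T.ltens A z) (T.act x Z') = T.comp (T.act x Z) z := by
  unfold Biv.act
  rw [← T.assoc, ← Pool.Agent.Helper63.Stab.exch', T.assoc, ltens_point, T.assoc]

/-- the product of two classes -/
def mulT {A B : LC} (x : T.Hom A LC.point) (y : T.Hom B LC.point) : T.Hom (A.prod B) LC.point :=
  T.comp (T.comp (T.tens x B) (T.ltens LC.point y)) (T.J (PMap.ofHomeo (LC.lunit LC.point)))

theorem mulT_eq {A B : LC} (x : T.Hom A LC.point) (y : T.Hom B LC.point) :
    mulT T x y = T.comp (T.act x B) y := by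
  unfold mulT Biv.act
  rw [jh_def, T.assoc, ltens_point, T.assoc]

theorem tens_act {A : LC} (x : T.Hom A LC.point) (Z V : LC) :
    T.tens (T.act x Z) V = T.comp (jh T (ascH A Z V)) (T.act x (Z.prod V)) := by
  rw [act_eq_pl, act_eq_pl, tens_pl, jh_pl]
  exact pl_congr x (Homeomorph.refl (Z.prod V)) _ _ _ _ (fun m => rfl) (fun n => rfl)

theorem act_mul {A B : LC} (x : T.Hom A LC.point) (y : T.Hom B LC.point) (Z : LC) :
    T.act (mulT T x y) Z = T.comp (jh T (ascH A B Z)) (T.comp (T.act x (B.prod Z)) (T.act y Z)) := by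
  rw [mulT_eq]
  have h : T.act (T.comp (T.act x B) y) Z = T.comp (T.tens (T.act x B) Z) (T.act y Z) := by
    unfold Biv.act
    rw [T.tens_comp, T.assoc]
  rw [h, tens_act, T.assoc]

theorem act_comp {A A' : LC} (a : T.Hom A A') (x : T.Hom A' LC.point) (Z : LC) :
    T.act (T.comp a x) Z = T.comp (T.tens a Z) (T.act x Z) := by
  unfold Biv.act
  rw [T.tens_comp, T.assoc]

theorem act_one (Z : LC) : T.act (T.J (PMap.id LC.point)) Z = jh T (LC.lunit Z) := by
  unfold Biv.act
  rw [Pool.Agent.Helper63.Stab.tens_id, T.id_comp]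

theorem act_point {A : LC} (x : T.Hom A LC.point) :
    T.act x LC.point = T.comp (jh T (Homeomorph.prodPUnit A : A.prod LC.point ≃ₜ A)) x := by
  rw [act_eq_pl]
  conv_rhs => rw [eq_pl x]
  rw [jh_pl]
  exact pl_congr x (Homeomorph.refl LC.point) _ _ _ _ (fun m => rfl) (fun n => rfl)

theorem mul_one_left {B : LC} (y : T.Hom B LC.point) :
    mulT T (T.J (PMap.id LC.point)) y = T.comp (jh T (LC.lunit B)) y := by
  rw [mulT_eq, act_one]

theorem mul_one_right {A : LC} (x : T.Hom A LC.point) :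
    mulT T x (T.J (PMap.id LC.point)) =
      T.comp (jh T (Homeomorph.prodPUnit A : A.prod LC.point ≃ₜ A)) x := by
  rw [mulT_eq, act_point]
  exact T.comp_id _

theorem mul_jh_left {A A' B : LC} (e : A ≃ₜ A') (x : T.Hom A' LC.point) (y : T.Hom B LC.point) :
    mulT T (T.comp (jh T e) x) y = T.comp (jh T (K := A.prod B) (L := A'.prod B)
      (e.prodCongr (Homeomorph.refl B))) (mulT T x y) := by
  rw [mulT_eq, mulT_eq, act_comp, T.assoc, Pool.Agent.Helper63.Stab.tens_jh]

theorem mul_jh_right {A B B' : LC} (e : B ≃ₜ B') (x : T.Hom A LC.point)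
    (y : T.Hom B' LC.point) :
    mulT T x (T.comp (jh T e) y) = T.comp (jh T (K := A.prod B) (L := A.prod B')
      ((Homeomorph.refl A).prodCongr e)) (mulT T x y) := by
  rw [mulT_eq, mulT_eq, ← T.assoc, ← act_nat, T.assoc, Pool.Agent.Helper63.Stab.ltens_jh]

theorem mul_assoc' {A B C : LC} (x : T.Hom A LC.point) (y : T.Hom B LC.point)
    (z : T.Hom C LC.point) :
    mulT T (mulT T x y) z = T.comp (jh T (ascH A B C)) (mulT T x (mulT T y z)) := by
  rw [mulT_eq T (mulT T x y) z, act_mul, mulT_eq T x (mulT T y z), mulT_eq T y z]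
  simp only [T.assoc]

theorem mul_comm' {A B : LC} (x : T.Hom A LC.point) (y : T.Hom B LC.point) :
    mulT T x y = T.comp (jh T (LC.swap A B)) (mulT T y x) := by
  rw [mulT_eq, mulT_eq, ← act_nat, act_point, Pool.Agent.Helper63.Stab.ltens_def, T.assoc, T.assoc]
  unfold Biv.act
  rw [T.assoc]
  congr 2
  rw [← T.assoc, ← jh_trans]
  rfl

end Act

/-! ## Natural classes up to homeomorphism -/

/-- a class in `T(A, pt)` for all theories `T` with classes `β_i` -/
def NC (A : LC) : Type 1 := ∀ (T : Biv) (_ : ∀ i : ℕ, T.Hom (Cn i) LC.point), T.Hom A LC.point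

/-- equality up to a homeomorphism -/
def Eqv {A B : LC} (x : NC A) (y : NC B) : Prop :=
  ∃ e : A ≃ₜ B, ∀ (T : Biv) (β : ∀ i : ℕ, T.Hom (Cn i) LC.point),
    x T β = T.comp (jh T e) (y T β)

namespace Eqv
variable {A B C D : LC}

theorem refl (x : NC A) : Eqv x x :=
  ⟨Homeomorph.refl A, fun T _ => (Pool.Agent.Helper63.Stab.jh_refl_comp T _).symm⟩

theorem symm {x : NC A} {y : NC B} (h : Eqv x y) : Eqv y x := by
  obtain ⟨e, he⟩ := h
  exact ⟨e.symm, fun T b => by rw [he, jh_symm_comp]⟩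

theorem trans {x : NC A} {y : NC B} {z : NC C} (h : Eqv x y) (h' : Eqv y z) : Eqv x z := by
  obtain ⟨e, he⟩ := h
  obtain ⟨e', he'⟩ := h'
  exact ⟨e.trans e', fun T β => by rw [he, he', jh_trans, T.assoc]⟩

end Eqv

/-- the product -/
def NC.mul {A B : LC} (x : NC A) (y : NC B) : NC (A.prod B) := fun T β => mulT T (x T β) (y T β)

theorem Eqv.mul {A B C D : LC} {x : NC A} {y : NC B} {z : NC C} {w : NC D} (h : Eqv x z)
    (h' : Eqv y w) : Eqv (x.mul y) (z.mul w) := by
  obtain ⟨e, he⟩ := h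
  obtain ⟨e', he'⟩ := h'
  refine ⟨((e.prodCongr (Homeomorph.refl B) : A.prod B ≃ₜ C.prod B).trans
    ((Homeomorph.refl C).prodCongr e' : C.prod B ≃ₜ C.prod D)), fun T b => ?_⟩
  have h1 : mulT T (x T b) (y T b) = mulT T (T.comp (jh T e) (z T b)) (T.comp (jh T e') (w T b)) := by
    rw [he, he']
  have h2 := jh_trans T (K := A.prod B) (L := C.prod B) (M := C.prod D)
    (e.prodCongr (Homeomorph.refl B)) ((Homeomorph.refl C).prodCongr e')
  refine h1.trans ?_
  refine Eq.trans ?_ (congrArg (fun t => T.comp t (mulT T (z T b) (w T b))) h2.symm)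
  rw [mul_jh_left, mul_jh_right, T.assoc]

theorem Eqv.assoc {A B C : LC} (x : NC A) (y : NC B) (z : NC C) :
    Eqv ((x.mul y).mul z) (x.mul (y.mul z)) :=
  ⟨ascH A B C, fun T _ => mul_assoc' T _ _ _⟩

theorem Eqv.comm {A B : LC} (x : NC A) (y : NC B) : Eqv (x.mul y) (y.mul x) :=
  ⟨LC.swap A B, fun T _ => mul_comm' T _ _⟩

/-- the unit -/
def NC.one : NC LC.point := fun T _ => T.J (PMap.id LC.point)

theorem Eqv.one_mul {A : LC} (x : NC A) : Eqv (NC.one.mul x) x :=
  ⟨LC.lunit A, fun T _ => mul_one_left T _⟩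

theorem Eqv.mul_one {A : LC} (x : NC A) : Eqv (x.mul NC.one) x :=
  ⟨(Homeomorph.prodPUnit A : A.prod LC.point ≃ₜ A), fun T _ => mul_one_right T _⟩

/-- the generators -/
def NC.gen (i : ℕ) : NC (Cn i) := fun _ β => β i

/-- the monomials -/
def mon (T : Biv) (β : ∀ i : ℕ, T.Hom (Cn i) LC.point) : ∀ L : List ℕ, T.Hom (Cn (deg L)) LC.point
  | [] => T.J (PMap.id LC.point)
  | i :: L => T.comp (T.J (PMap.ofHomeo (CnAdd (deg L) i).symm)) (mulT T (mon T β L) (β i))

/-- the monomials as natural classes -/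
def NC.mon (L : List ℕ) : NC (Cn (deg L)) := fun T β => Pool.Agent.Helper54.Stab.mon T β L

theorem Eqv.cons (i : ℕ) (L : List ℕ) : Eqv (NC.mon (i :: L)) ((NC.mon L).mul (NC.gen i)) :=
  ⟨(CnAdd (deg L) i).symm, fun _ _ => rfl⟩

theorem Eqv.perm {L L' : List ℕ} (h : L.Perm L') : Eqv (NC.mon L) (NC.mon L') := by
  induction h with
  | nil => exact Eqv.refl _
  | cons i h ih =>
    exact (Eqv.cons i _).trans ((ih.mul (Eqv.refl _)).trans (Eqv.cons i _).symm)
  | swap i k L =>
    have h1 : ∀ i k : ℕ, Eqv (NC.mon (i :: k :: L))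
        ((NC.mon L).mul ((NC.gen k).mul (NC.gen i))) := fun i k =>
      (Eqv.cons i _).trans (((Eqv.cons k L).mul (Eqv.refl _)).trans (Eqv.assoc _ _ _))
    exact (h1 k i).trans (((Eqv.refl _).mul (Eqv.comm _ _)).trans (h1 i k).symm)
  | trans _ _ h1 h2 => exact h1.trans h2

theorem Eqv.append (L : List ℕ) : ∀ M : List ℕ,
    Eqv ((NC.mon L).mul (NC.mon M)) (NC.mon (M ++ L))
  | [] => Eqv.mul_one (NC.mon L)
  | i :: M => ((Eqv.refl _).mul (Eqv.cons i M)).trans ((Eqv.assoc _ _ _).symm.trans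
      (((Eqv.append L M).mul (Eqv.refl _)).trans (Eqv.cons i (M ++ L)).symm))

theorem Eqv.single (i : ℕ) : Eqv (NC.gen i) (NC.mon [i]) :=
  (Eqv.one_mul (NC.gen i)).symm.trans (Eqv.cons i []).symm

/-! ## Terms -/

section Term
variable {R T : Biv} (F : BivHom R T)

/-- a coefficient times a class -/
def tm {K Z A : LC} (c : R.Hom K (A.prod Z)) (x : T.Hom A LC.point) : T.Hom K Z :=
  T.comp (F.F c) (T.act x Z)

theorem tm_add {K Z A : LC} (c c' : R.Hom K (A.prod Z)) (x : T.Hom A LC.point) :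
    tm F (c + c') x = tm F c x + tm F c' x := by
  unfold tm
  rw [F.add, T.add_comp]

theorem tm_jh {K Z A A' : LC} (e : A ≃ₜ A') (c : R.Hom K (A.prod Z)) (x : T.Hom A' LC.point) :
    tm F c (T.comp (jh T e) x) = tm F (R.comp c (R.tens (jh R e) Z)) x := by
  unfold tm
  rw [act_comp, F.comp, F.tens, T.assoc]
  congr 3
  exact (F.J _).symm

theorem tm_comp {K L Z A B : LC} (c : R.Hom K (A.prod L)) (x : T.Hom A LC.point)
    (d : R.Hom L (B.prod Z)) (y : T.Hom B LC.point) :
    T.comp (tm F c x) (tm F d y) =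
      tm F (R.comp (R.comp c (R.ltens A d)) (jh R (ascH A B Z).symm)) (mulT T x y) := by
  unfold tm
  have e : F.F (jh R (ascH A B Z).symm) = jh T (ascH A B Z).symm := F.J _
  rw [act_mul, F.comp, F.comp, F.ltens, e]
  simp only [T.assoc]
  rw [jh_symm_comp, ← T.assoc (T.ltens A (F.F d)), act_nat, T.assoc]

theorem tm_tens {K Z A : LC} (c : R.Hom K (A.prod Z)) (x : T.Hom A LC.point) (V : LC) :
    T.tens (tm F c x) V = tm F (R.comp (R.tens c V) (jh R (ascH A Z V))) x := by
  unfold tm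
  have e : F.F (jh R (ascH A Z V)) = jh T (ascH A Z V) := F.J _
  rw [T.tens_comp, tens_act, F.comp, F.tens, e, T.assoc]

theorem tm_one {K Z : LC} (x : R.Hom K Z) :
    tm F (R.comp x (jh R (LC.lunit Z).symm)) (T.J (PMap.id LC.point)) = F.F x := by
  unfold tm
  have e : F.F (jh R (LC.lunit Z).symm) = jh T (LC.lunit Z).symm := F.J _
  rw [act_one, F.comp, e, T.assoc, jh_symm_comp', T.comp_id]

theorem tm_class {A : LC} (x : T.Hom A LC.point) :
    tm F (jh R (K := A) (L := A.prod LC.point)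
      (Homeomorph.prodPUnit A : A.prod LC.point ≃ₜ A).symm) x = x := by
  unfold tm
  have e : F.F (jh R (K := A) (L := A.prod LC.point)
      (Homeomorph.prodPUnit A : A.prod LC.point ≃ₜ A).symm) =
    jh T (K := A) (L := A.prod LC.point)
      (Homeomorph.prodPUnit A : A.prod LC.point ≃ₜ A).symm := F.J _
  rw [act_point, e]
  exact jh_symm_comp T (K := A.prod LC.point) (L := A) _ _

end Term

/-! ## The morphism -/

section Phi
variable {R : Biv} (P : PRTheory R) (o : Orient R)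

/-- the inclusion as a morphism -/
def incH : BivHom R P.toBiv := ⟨P.inc, P.inc_add, P.inc_J, P.inc_comp, P.inc_tens⟩

theorem bL_eq : ∀ L : List ℕ, P.bL o L = mon P.toBiv (P.b o) L
  | [] => rfl
  | i :: L => by
    have h : P.bL o (i :: L) = P.comp (P.J (PMap.ofHomeo (CnAdd (deg L) i).symm))
        (mulT P.toBiv (P.bL o L) (P.b o i)) := rfl
    rw [h, bL_eq L]
    rfl

theorem term_eq {K Z : LC} {d : ℕ} (c : R.Hom K ((Cn d).prod Z)) (x : P.Hom (Cn d) LC.point) :
    P.term c x = tm (incH P) c x := rfl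

/-- induction on elements of the polynomial theory -/
theorem poly_ind {K Z : LC} {p : P.Hom K Z → Prop} (h0 : p 0)
    (hadd : ∀ x y, p x → p y → p (x + y))
    (h : ∀ (L : PL) (c : R.Hom K ((Cn (deg L.1)).prod Z)),
      p (tm (incH P) c (mon P.toBiv (P.b o) L.1))) (x : P.Hom K Z) : p x := by
  classical
  obtain ⟨c, rfl⟩ := PO7.psi_surj P o K Z x
  rw [PO7.psi_apply]
  unfold DFinsupp.sum
  refine Finset.sum_induction _ p hadd h0 fun L _ => ?_
  change p (P.term (c L) (P.bL o L.1))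
  rw [bL_eq]
  exact h L _

/-- the expansion as an equivalence -/
def psiE (K Z : LC) : (Π₀ L : PL, R.Hom K ((Cn (deg L.1)).prod Z)) ≃+ P.Hom K Z :=
  AddEquiv.ofBijective (PO7.psi P o K Z)
    ⟨(injective_iff_map_eq_zero _).2 (PO7.psi_inj P o K Z), PO7.psi_surj P o K Z⟩

variable {T : Biv} (F : BivHom R T) (β : ∀ i : ℕ, T.Hom (Cn i) LC.point)

open Classical in
/-- the morphism on polynomials -/
def phiD (K Z : LC) : (Π₀ L : PL, R.Hom K ((Cn (deg L.1)).prod Z)) →+ T.Hom K Z :=
  DFinsupp.sumAddHom fun L => AddMonoidHom.mk' (fun c => tm F c (mon T β L.1))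
    fun c c' => tm_add F c c' _

/-- the morphism -/
def Phi {K Z : LC} : P.Hom K Z →+ T.Hom K Z :=
  (phiD F β K Z).comp (psiE P o K Z).symm.toAddMonoidHom

theorem Phi_PL {K Z : LC} (L : PL) (c : R.Hom K ((Cn (deg L.1)).prod Z)) :
    Phi P o F β (tm (incH P) c (mon P.toBiv (P.b o) L.1)) = tm F c (mon T β L.1) := by
  classical
  have h1 : psiE P o K Z (DFinsupp.single L c) = tm (incH P) c (mon P.toBiv (P.b o) L.1) := by
    rw [← bL_eq]
    exact DFinsupp.sumAddHom_single
      (fun L : PL => AddMonoidHom.mk' (fun y : R.Hom K ((Cn (deg L.1)).prod Z) =>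
        P.term y (P.bL o L.1)) fun c c' => PO7.term_add P c c' _) L c
  have h2 : (psiE P o K Z).symm (tm (incH P) c (mon P.toBiv (P.b o) L.1)) =
      DFinsupp.single L c := by
    rw [← h1, AddEquiv.symm_apply_apply]
  change phiD F β K Z ((psiE P o K Z).symm (tm (incH P) c (mon P.toBiv (P.b o) L.1))) = _
  rw [h2]
  exact DFinsupp.sumAddHom_single
    (fun L : PL => AddMonoidHom.mk' (fun c : R.Hom K ((Cn (deg L.1)).prod Z) =>
      tm F c (mon T β L.1)) fun c c' => tm_add F c c' _) L c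

theorem Phi_mon {K Z : LC} (L : List ℕ) (hL : ∀ i ∈ L, 0 < i)
    (c : R.Hom K ((Cn (deg L)).prod Z)) :
    Phi P o F β (tm (incH P) c (mon P.toBiv (P.b o) L)) = tm F c (mon T β L) := by
  let L' : List ℕ := L.insertionSort (· ≤ ·)
  have hp : L'.Perm L := List.perm_insertionSort _ _
  obtain ⟨e, he⟩ := Eqv.perm hp.symm
  have e1 : mon P.toBiv (P.b o) L = P.comp (jh P.toBiv e) (mon P.toBiv (P.b o) L') := he _ _
  have e2 : mon T β L = T.comp (jh T e) (mon T β L') := he _ _
  rw [e1, e2, tm_jh, tm_jh]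
  exact Phi_PL P o F β ⟨L', List.pairwise_insertionSort _ _, fun i hi => hL i (hp.mem_iff.1 hi)⟩ _

theorem Phi_eqv {K Z A : LC} (x : NC A) (L : List ℕ) (hL : ∀ i ∈ L, 0 < i)
    (h : Eqv x (NC.mon L)) (c : R.Hom K (A.prod Z)) :
    Phi P o F β (tm (incH P) c (x P.toBiv (P.b o))) = tm F c (x T β) := by
  obtain ⟨e, he⟩ := h
  rw [he, he, tm_jh, tm_jh]
  exact Phi_mon P o F β L hL _

theorem Phi_inc {K Z : LC} (x : R.Hom K Z) : Phi P o F β (P.inc x) = F.F x := by
  have h1 : P.inc x = tm (incH P) (R.comp x (jh R (LC.lunit Z).symm)) (P.J (PMap.id LC.point)) :=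
    (tm_one (incH P) x).symm
  rw [h1]
  exact (Phi_eqv P o F β NC.one [] (by simp) (Eqv.refl _) _).trans (tm_one F x)

theorem Phi_b (i : ℕ) (hi : 0 < i) : Phi P o F β (P.b o i) = β i := by
  have h1 : P.b o i = tm (incH P)
      (jh R (Homeomorph.prodPUnit (Cn i) : (Cn i).prod LC.point ≃ₜ Cn i).symm) (P.b o i) :=
    (tm_class (incH P) (P.b o i)).symm
  rw [h1]
  exact (Phi_eqv P o F β (NC.gen i) [i] (by simpa using hi) (Eqv.single i) _).trans
    (tm_class F (β i))

theorem Phi_tens {K Z : LC} (x : P.Hom K Z) (V : LC) :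
    Phi P o F β (P.tens x V) = T.tens (Phi P o F β x) V := by
  refine poly_ind P o (p := fun x => Phi P o F β (P.tens x V) = T.tens (Phi P o F β x) V)
    ?_ ?_ ?_ x
  · have h1 : ∀ (T : Biv) {K Z : LC} (V : LC), T.tens (0 : T.Hom K Z) V = 0 := by
      intro T K Z V
      have := T.tens_add (0 : T.Hom K Z) 0 V
      rw [add_zero] at this
      exact left_eq_add.1 this
    rw [h1, map_zero, map_zero, h1]
  · intro x y hx hy
    rw [P.tens_add, map_add, map_add, T.tens_add, hx, hy]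
  · intro L c
    have h1 := tm_tens (incH P) c (mon P.toBiv (P.b o) L.1) V
    refine (congrArg (fun t => Phi P o F β t) h1).trans ((Phi_PL P o F β L _).trans ?_)
    rw [Phi_PL, tm_tens]

theorem Phi_comp {K L Z : LC} (x : P.Hom K L) (y : P.Hom L Z) :
    Phi P o F β (P.comp x y) = T.comp (Phi P o F β x) (Phi P o F β y) := by
  have hz1 : ∀ (T : Biv) {K L Z : LC} (y : T.Hom L Z), T.comp (0 : T.Hom K L) y = 0 := by
    intro T K L Z y
    have := T.add_comp (0 : T.Hom K L) 0 y
    rw [add_zero] at this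
    exact left_eq_add.1 this
  have hz2 : ∀ (T : Biv) {K L Z : LC} (x : T.Hom K L), T.comp x (0 : T.Hom L Z) = 0 := by
    intro T K L Z x
    have := T.comp_add x (0 : T.Hom L Z) 0
    rw [add_zero] at this
    exact left_eq_add.1 this
  refine poly_ind P o (p := fun x => Phi P o F β (P.comp x y) =
    T.comp (Phi P o F β x) (Phi P o F β y)) ?_ ?_ ?_ x
  · rw [hz1, map_zero, map_zero, hz1]
  · intro x x' hx hx'
    rw [P.add_comp, map_add, map_add, T.add_comp, hx, hx']
  · intro A c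
    refine poly_ind P o (p := fun y => Phi P o F β
      (P.comp (tm (incH P) c (mon P.toBiv (P.b o) A.1)) y) =
      T.comp (Phi P o F β (tm (incH P) c (mon P.toBiv (P.b o) A.1))) (Phi P o F β y)) ?_ ?_ ?_ y
    · rw [hz2, map_zero, map_zero, hz2]
    · intro y y' hy hy'
      rw [P.comp_add, map_add, map_add, T.comp_add, hy, hy']
    · intro B d
      have h1 := tm_comp (incH P) c (mon P.toBiv (P.b o) A.1) d (mon P.toBiv (P.b o) B.1)
      refine (congrArg (fun t => Phi P o F β t) h1).trans ?_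
      rw [Phi_PL, Phi_PL, tm_comp]
      refine Phi_eqv P o F β ((NC.mon A.1).mul (NC.mon B.1)) (B.1 ++ A.1) ?_
        (Eqv.append A.1 B.1) _
      intro i hi
      rcases List.mem_append.1 hi with h | h
      · exact B.2.2 i h
      · exact A.2.2 i h

/-- (PL) -/
theorem exists_poly_hom54 : ∃ Φ : BivHom P.toBiv T,
    (∀ {K Z : LC} (x : R.Hom K Z), Φ.F (P.inc x) = F.F x) ∧ ∀ i, 0 < i → Φ.F (P.b o i) = β i :=
  ⟨{ F := fun x => Phi P o F β x
     add := fun x y => map_add _ x y
     J := fun f => by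
       rw [← P.inc_J, Phi_inc, F.J]
     comp := fun x y => Phi_comp P o F β x y
     tens := fun x V => Phi_tens P o F β x V },
    fun x => Phi_inc P o F β x, fun i hi => Phi_b P o F β i hi⟩

end Phi

end Pool.Agent.Helper54.Stab
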